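import Pool.Agent.Q128.Span.Main

/-!
# MP_7e2005_co: two-element signed spanning sets in `ℤ₃ × ℤ₃ₖ` and `ℤ₄ × ℤ₄ₗ`

The complete answers to both questions, for every `s`.
-/

set_option autoImplicit false

namespace Pool.Agent.Results.MP_7e2005_co.ThreeAndFour

open Pool.Agent.Q128.Span

theorem result :
    (∀ t k : ℕ, 0 < k → (phi (ZMod 3 × ZMod (3 * k)) (3 * t) = 2 ↔
      (k + t ≤ 2 * t ^ 2 ∨ (k ≤ 2 * t ^ 2 ∧ Even k ∧ ¬ (Odd t ∧ 4 ∣ k))))) ∧
    (∀ t k : ℕ, 0 < k → (phi (ZMod 3 × ZMod (3 * k)) (3 * t + 1) = 2 ↔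
      k ≤ 2 * t * (t + 1))) ∧
    (∀ t k : ℕ, 0 < k → (phi (ZMod 3 × ZMod (3 * k)) (3 * t + 2) = 2 ↔
      k ≤ 2 * t * (t + 1) + 1)) ∧
    (∀ t e l : ℕ, 0 < l → e < 2 → (phi (ZMod 4 × ZMod (4 * l)) (4 * t + e) = 2 ↔
      (l + t ≤ 2 * t ^ 2 ∨ (l ≤ 2 * t ^ 2 ∧ Even l ∧ ¬ (Odd t ∧ 4 ∣ l))))) ∧
    (∀ t e l : ℕ, 0 < l → e < 2 → (phi (ZMod 4 × ZMod (4 * l)) (4 * t + 2 + e) = 2 ↔
      l ≤ 2 * t * (t + 1))) := by
  refine ⟨?_, ?_, ?_, ?_, ?_⟩
  · intro t k hk
    rw [main (by norm_num) (dvd_mul_right 3 k) (by omega) (AddEquiv.refl _),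
      Nat.mul_div_cancel_left _ (by norm_num)]
    unfold Adm
    have hρ : (2 * (3 * t) + 1) / 3 = 2 * t := by omega
    rw [hρ]
    constructor
    · rintro (⟨r, hr, _⟩ | ⟨r, hr, h⟩)
      · omega
      · obtain rfl : t = r := by omega
        exact h
    · intro h
      exact Or.inr ⟨t, rfl, h⟩
  · intro t k hk
    rw [main (by norm_num) (dvd_mul_right 3 k) (by omega) (AddEquiv.refl _),
      Nat.mul_div_cancel_left _ (by norm_num)]
    unfold Adm
    have hρ : (2 * (3 * t + 1) + 1) / 3 = 2 * t + 1 := by omega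
    rw [hρ]
    constructor
    · rintro (⟨r, hr, h⟩ | ⟨r, hr, _⟩)
      · obtain rfl : t = r := by omega
        rcases h with h | ⟨_, h, _⟩
        · exact h
        · omega
      · omega
    · intro h
      exact Or.inl ⟨t, rfl, Or.inl h⟩
  · intro t k hk
    rw [main (by norm_num) (dvd_mul_right 3 k) (by omega) (AddEquiv.refl _),
      Nat.mul_div_cancel_left _ (by norm_num)]
    unfold Adm
    have hρ : (2 * (3 * t + 2) + 1) / 3 = 2 * t + 1 := by omega
    rw [hρ]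
    constructor
    · rintro (⟨r, hr, h⟩ | ⟨r, hr, _⟩)
      · obtain rfl : t = r := by omega
        rcases h with h | ⟨_, _, h⟩
        · omega
        · omega
      · omega
    · intro h
      refine Or.inl ⟨t, rfl, ?_⟩
      rcases Nat.lt_or_ge (2 * t * (t + 1)) k with h1 | h1
      · exact Or.inr ⟨by decide, ⟨t + 1, by ring⟩, by omega⟩
      · exact Or.inl h1
  · intro t e l hl he
    rw [main (by norm_num) (dvd_mul_right 4 l) (by omega) (AddEquiv.refl _),
      Nat.mul_div_cancel_left _ (by norm_num)]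
    unfold Adm
    have hρ : (2 * (4 * t + e) + 1) / 4 = 2 * t := by omega
    rw [hρ]
    constructor
    · rintro (⟨r, hr, _⟩ | ⟨r, hr, h⟩)
      · omega
      · obtain rfl : t = r := by omega
        exact h
    · intro h
      exact Or.inr ⟨t, rfl, h⟩
  · intro t e l hl he
    rw [main (by norm_num) (dvd_mul_right 4 l) (by omega) (AddEquiv.refl _),
      Nat.mul_div_cancel_left _ (by norm_num)]
    unfold Adm
    have hρ : (2 * (4 * t + 2 + e) + 1) / 4 = 2 * t + 1 := by omega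
    rw [hρ]
    constructor
    · rintro (⟨r, hr, h⟩ | ⟨r, hr, _⟩)
      · obtain rfl : t = r := by omega
        rcases h with h | ⟨h, _, _⟩
        · exact h
        · exact absurd h (by decide)
      · omega
    · intro h
      exact Or.inl ⟨t, rfl, Or.inl h⟩

end Pool.Agent.Results.MP_7e2005_co.ThreeAndFour
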